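import Mathlib

namespace Pool.Agent.Results.MP_058057_co.StrictnessFails

/-- Number of partitions of n into distinct parts, no part divisible by 4 (a partition into
distinct parts is a finite set of positive integers with sum n). -/
def Q0nat (n : ℕ) : ℕ :=
  ((Finset.Icc 1 n).powerset.filter fun s => (∀ i ∈ s, ¬ 4 ∣ i) ∧ ∑ i ∈ s, i = n).card

/-- Q_0(m) for an integer m, zero for m < 0. -/
def Q0 (m : ℤ) : ℤ := if m < 0 then 0 else (Q0nat m.toNat : ℤ)

/-- xi_n = 2(-1)^m if n = 4m^2 with m >= 1, and 1 if n = 0, and 0 otherwise. -/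
def xi (n : ℕ) : ℤ :=
  if n = 0 then 1 else ∑ m ∈ Finset.Icc 1 n, if n = 4 * m ^ 2 then 2 * (-1 : ℤ) ^ m else 0

/-- S_k(n), the sum of the first 2k terms of the signed sum over triangular numbers. -/
def S (k n : ℕ) : ℤ :=
  ∑ j ∈ Finset.range (2 * k),
    (-1 : ℤ) ^ (j * (j + 1) / 2) * Q0 ((n : ℤ) - ((j * (j + 1) / 2 : ℕ) : ℤ))

theorem vals : Q0nat 7 = 3 ∧ Q0nat 6 = 3 := by
  constructor <;> decide +kernel

theorem eq_zero : (-1 : ℤ) ^ (1 - 1) * (S 1 7 - xi 7) = 0 := by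
  have h1 : S 1 7 = 0 := by
    simp only [S, Finset.sum_range_succ, Finset.sum_range_zero]
    norm_num [Q0]
    rw [show Int.toNat 7 = 7 from rfl, show Int.toNat 6 = 6 from rfl, vals.1, vals.2]
    norm_num
  have h2 : xi 7 = 0 := by decide +kernel
  rw [h1, h2]; norm_num

/-- The statement of Q1 is false: for k = 1, n = 7 one has n >= k(2k+1) but
(-1)^(k-1) (S_k(n) - xi_n) = 0, so the inequality is not strict. -/
theorem result :
    ((-1 : ℤ) ^ (1 - 1) * (S 1 7 - xi 7) = 0 ∧ 1 * (2 * 1 + 1) ≤ 7) ∧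
    ¬ ∀ n k : ℕ, 1 ≤ k →
      0 ≤ (-1 : ℤ) ^ (k - 1) * (S k n - xi n) ∧
        (0 < (-1 : ℤ) ^ (k - 1) * (S k n - xi n) ↔ k * (2 * k + 1) ≤ n) := by
  refine ⟨⟨eq_zero, by norm_num⟩, ?_⟩
  intro h
  have h7 := ((h 7 1 le_rfl).2).mpr (by norm_num)
  rw [eq_zero] at h7
  exact lt_irrefl _ h7

end Pool.Agent.Results.MP_058057_co.StrictnessFails
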